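import Mathlib
import Pool.Agent.Helper28.MT.Goals3

/-!
# MT3-POTI (packet 15257, helper1)

The identity between the label weights and the rates.
-/

set_option autoImplicit false

namespace Pool.Agent.Helper1.MT3

open Finset
open Pool.Agent.Helper28.MT3

/-- Grouping of the labels of a block of blocks. -/
theorem sum_group (N a b : ℕ) (g : ℕ → ℝ) (hab : a ≤ b) :
    ∑ r ∈ Ico (a * N) (b * N), g (r / N) = N * ∑ p ∈ Ico a b, g p := by
  induction b, hab using Nat.le_induction with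
  | base => simp
  | succ b hab ih =>
    rw [← Finset.sum_Ico_consecutive _ (Nat.mul_le_mul_right N hab)
      (Nat.mul_le_mul_right N (Nat.le_succ b)), ih, Finset.sum_Ico_succ_top hab, mul_add]
    congr 1
    have h1 : ∀ r ∈ Ico (b * N) ((b + 1) * N), g (r / N) = g b := by
      intro r hr
      rw [mem_Ico] at hr
      have : r / N = b := by
        apply Nat.div_eq_of_lt_le
        · exact hr.1
        · exact hr.2
      rw [this]
    rw [Finset.sum_congr rfl h1, Finset.sum_const, Nat.card_Ico, nsmul_eq_mul]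
    congr 1
    have : (b + 1) * N - b * N = N := by
      rw [Nat.add_mul, one_mul, Nat.add_sub_cancel_left]
    rw [this]

/-- The inner sum for a level below or equal. -/
theorem inner_le (s j l l' : ℕ) (f : ℕ → ℝ) (hl : l ≤ s) (hl' : l' ≤ l)
    (hj : j < 2 ^ s) :
    ∑ r ∈ Ico ((j / 2 ^ l + 2) * 2 ^ l) ((j / 2 ^ l + 3) * 2 ^ l),
      (if j / 2 ^ l' + 2 ≤ r / 2 ^ l' then f (r / 2 ^ l') else 0) =
    2 ^ l' * ∑ p ∈ range (2 ^ (s + 2 - l')),
      (if p / 2 ^ (l - l') = j / 2 ^ l + 2 then f p else 0) := by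
  set A := j / 2 ^ l with hA
  have hsplit : (2 : ℕ) ^ l = 2 ^ (l - l') * 2 ^ l' := by
    rw [← pow_add, Nat.sub_add_cancel hl']
  have hAs : A < 2 ^ (s - l) := by
    rw [hA, Nat.div_lt_iff_lt_mul (by positivity), ← pow_add, Nat.sub_add_cancel hl]
    exact hj
  have hdd : j / 2 ^ l = j / 2 ^ l' / 2 ^ (l - l') := by
    rw [Nat.div_div_eq_div_mul, ← pow_add, Nat.add_sub_cancel' hl']
  have hcond : ∀ r ∈ Ico ((A + 2) * 2 ^ l) ((A + 3) * 2 ^ l),
      (if j / 2 ^ l' + 2 ≤ r / 2 ^ l' then f (r / 2 ^ l') else 0) = f (r / 2 ^ l') := by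
    intro r hr
    rw [mem_Ico] at hr
    rw [if_pos]
    have h1 : (A + 2) * 2 ^ (l - l') ≤ r / 2 ^ l' := by
      rw [Nat.le_div_iff_mul_le (by positivity), mul_assoc, ← hsplit]
      exact hr.1
    have h2 : j / 2 ^ l' < (A + 1) * 2 ^ (l - l') := by
      rw [← Nat.div_lt_iff_lt_mul (by positivity), ← hdd]
      omega
    have h3 : 1 ≤ 2 ^ (l - l') := Nat.one_le_two_pow
    nlinarith
  rw [Finset.sum_congr rfl hcond]
  rw [show (A + 2) * 2 ^ l = ((A + 2) * 2 ^ (l - l')) * 2 ^ l' by rw [mul_assoc, ← hsplit],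
    show (A + 3) * 2 ^ l = ((A + 3) * 2 ^ (l - l')) * 2 ^ l' by rw [mul_assoc, ← hsplit]]
  rw [sum_group (2 ^ l') _ _ f (Nat.mul_le_mul_right _ (by omega))]
  push_cast
  congr 1
  rw [← Finset.sum_filter]
  apply Finset.sum_congr _ (fun _ _ => rfl)
  ext p
  rw [mem_Ico, mem_filter, mem_range, Nat.div_eq_iff (by positivity)]
  have h3 : 1 ≤ 2 ^ (l - l') := Nat.one_le_two_pow
  have h4 : (2 : ℕ) ^ (s + 2 - l') = 4 * 2 ^ (s - l) * 2 ^ (l - l') := by
    rw [show s + 2 - l' = 2 + (s - l) + (l - l') by omega, pow_add, pow_add]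
    norm_num
  have h5 : 1 ≤ 2 ^ (s - l) := Nat.one_le_two_pow
  have h6 : (A + 3) * 2 ^ (l - l') ≤ 2 ^ (s + 2 - l') := by
    rw [h4]
    apply Nat.mul_le_mul_right
    omega
  have h7 : (A + 3) * 2 ^ (l - l') = (A + 2) * 2 ^ (l - l') + 2 ^ (l - l') := by ring
  constructor
  · rintro ⟨h1, h2⟩
    refine ⟨by omega, ?_, ?_⟩
    · linarith
    · omega
  · rintro ⟨h1, h2, h3'⟩
    constructor
    · linarith
    · omega

/-- The inner sum for a level above. -/
theorem inner_gt (j l l' : ℕ) (f : ℕ → ℝ) (hl' : l < l') :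
    ∑ r ∈ Ico ((j / 2 ^ l + 2) * 2 ^ l) ((j / 2 ^ l + 3) * 2 ^ l),
      (if j / 2 ^ l' + 2 ≤ r / 2 ^ l' then f (r / 2 ^ l') else 0) = 0 := by
  apply Finset.sum_eq_zero
  intro r hr
  rw [mem_Ico] at hr
  rw [if_neg]
  intro h
  have h1 : r / 2 ^ l = j / 2 ^ l + 2 := by
    apply Nat.div_eq_of_lt_le
    · exact hr.1
    · exact hr.2
  have h2 : r / 2 ^ l' = (j / 2 ^ l + 2) / 2 ^ (l' - l) := by
    rw [← h1, Nat.div_div_eq_div_mul, ← pow_add, Nat.add_sub_cancel' hl'.le]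
  have h3 : j / 2 ^ l' = j / 2 ^ l / 2 ^ (l' - l) := by
    rw [Nat.div_div_eq_div_mul, ← pow_add, Nat.add_sub_cancel' hl'.le]
  have h4 : 2 ≤ 2 ^ (l' - l) := by
    calc 2 = 2 ^ 1 := by norm_num
      _ ≤ 2 ^ (l' - l) := Nat.pow_le_pow_right (by norm_num) (by omega)
  have h5 : (j / 2 ^ l + 2) / 2 ^ (l' - l) ≤ (j / 2 ^ l + 2 ^ (l' - l)) / 2 ^ (l' - l) :=
    Nat.div_le_div_right (by omega)
  rw [Nat.add_div_right _ (by positivity)] at h5
  omega

/-- The mean of the label weights in terms of the pools. -/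
theorem cm_eq (k s : ℕ) (u : ℕ → ℕ → ℕ → ℕ) (j l : ℕ) (hl : l ≤ s) (hj : j < 2 ^ s) :
    cm (wl k s u j) j l = 2 / 2 ^ l * ∑ l' ∈ Icc 1 s, (if l' ≤ l then
      2 ^ l' * ∑ p ∈ range (2 ^ (s + 2 - l')),
        (if p / 2 ^ (l - l') = j / 2 ^ l + 2 then wp k s u l' p j else 0) else 0) := by
  unfold cm wl
  rw [Finset.sum_comm]
  congr 1
  apply Finset.sum_congr rfl
  intro l' _
  by_cases h : l' ≤ l
  · rw [if_pos h]
    exact inner_le s j l l' (fun p => wp k s u l' p j) hl h hj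
  · rw [if_neg h]
    exact inner_gt j l l' (fun p => wp k s u l' p j) (by omega)

/-- **MT3-POTI**. -/
theorem mt3_poti : G_POTI := by
  intro k s u j hk hs hj
  have hk' : (k : ℝ) ≠ 0 := by
    have : (0 : ℝ) < k := by exact_mod_cast hk
    exact this.ne'
  have hL : 2 ^ 47 * ∑ l ∈ Icc 1 s, 2 ^ (s - l) * ((s - l + 1 : ℕ) : ℝ) * cm (wl k s u j) j l =
      ∑ l ∈ Icc 1 s, ∑ l' ∈ Icc 1 s, ∑ p ∈ range (2 ^ (s + 2 - l')),
        (if l' ≤ l then (if p / 2 ^ (l - l') = j / 2 ^ l + 2 then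
          2 ^ 48 * (2 ^ (s - l) * ((s - l + 1 : ℕ) : ℝ) * (2 ^ l' / 2 ^ l) * wp k s u l' p j)
          else 0) else 0) := by
    rw [Finset.mul_sum]
    apply Finset.sum_congr rfl
    intro l hl
    rw [mem_Icc] at hl
    rw [cm_eq k s u j l hl.2 hj, Finset.mul_sum, Finset.mul_sum, Finset.mul_sum]
    apply Finset.sum_congr rfl
    intro l' _
    by_cases h : l' ≤ l
    · rw [if_pos h, Finset.mul_sum, Finset.mul_sum, Finset.mul_sum, Finset.mul_sum]
      apply Finset.sum_congr rfl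
      intro p _
      rw [if_pos h]
      by_cases h2 : p / 2 ^ (l - l') = j / 2 ^ l + 2
      · rw [if_pos h2, if_pos h2]
        ring
      · rw [if_neg h2, if_neg h2]
        ring
    · rw [if_neg h]
      simp [h]
  have hR : ∑ l ∈ Icc 1 s, ∑ p ∈ range (2 ^ (s + 2 - l)),
      wp k s u l p j * (k / 2 * dr k s l p j) =
      ∑ l' ∈ Icc 1 s, ∑ l ∈ Icc 1 s, ∑ p ∈ range (2 ^ (s + 2 - l')),
        (if l' ≤ l then (if p / 2 ^ (l - l') = j / 2 ^ l + 2 then
          2 ^ 48 * (2 ^ (s - l) * ((s - l + 1 : ℕ) : ℝ) * (2 ^ l' / 2 ^ l) * wp k s u l' p j)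
          else 0) else 0) := by
    apply Finset.sum_congr rfl
    intro l' hl'
    rw [mem_Icc] at hl'
    rw [Finset.sum_comm]
    apply Finset.sum_congr rfl
    intro p _
    unfold dr
    rw [Finset.mul_sum, Finset.mul_sum]
    rw [show Icc l' s = (Icc 1 s).filter (fun l => l' ≤ l) by
      ext x
      simp only [mem_Icc, mem_filter]
      omega]
    rw [Finset.sum_filter]
    apply Finset.sum_congr rfl
    intro l _
    by_cases h : l' ≤ l
    · rw [if_pos h, if_pos h]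
      by_cases h2 : p / 2 ^ (l - l') = j / 2 ^ l + 2
      · rw [if_pos h2, if_pos h2]
        field_simp
      · rw [if_neg h2, if_neg h2]
        ring
    · rw [if_neg h, if_neg h]
  rw [hL, hR, Finset.sum_comm]

end Pool.Agent.Helper1.MT3
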